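import Pool.Agent.TH50.DQ.LineDefs

/-!
# The linear form as an integral on `Re s = 1/2`, `Q ≤ -2` (job 4181, MP_1eadae_ag)

Port of `Pool/Agent/H757R2/LP/A2.lean`, `A3.lean`, `A4.lean`.
-/

set_option autoImplicit false

open Polynomial Filter Topology MeasureTheory

namespace Pool.Agent.TH50.DQ

open Pool.Agent.LP

noncomputable section

namespace LineA

open Pool.Agent.H757R2.LP (kap kap' kap_pos kap_cont kap_int integrable_kap integrable_kap'
  by_parts zc zl_cont zl_norm zl_k_ne zl_k_norm zl_k_re zl_re aeval_cont aeval_bd aeval_deriv In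
  In_feq zl_eq zl_add_one lap joint J_exp pf H_F_cont H_F_bd)

/-- the factor `e^{w z}` -/
def ew (w y : ℝ) : ℂ := Complex.exp (w * zl y)

lemma ew_norm (w y : ℝ) : ‖ew w y‖ = Real.exp (w / 2) := by
  unfold ew
  rw [Complex.norm_exp]
  congr 1
  rw [Complex.re_ofReal_mul, zl_re]
  ring

lemma ew_cont (w : ℝ) : Continuous (ew w) :=
  Complex.continuous_exp.comp (continuous_const.mul zl_cont)

lemma zl_deriv (y : ℝ) : HasDerivAt zl Complex.I y := by
  have h0 : HasDerivAt (fun y : ℝ => (y : ℂ)) 1 y := Complex.ofRealCLM.hasDerivAt (x := y)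
  exact ((h0.mul_const Complex.I).const_add (1 / 2 : ℂ)).congr_deriv (by simp)

lemma ew_deriv (w y : ℝ) : HasDerivAt (ew w) (Complex.I * (w * ew w y)) y := by
  have h1 := ((zl_deriv y).const_mul (w : ℂ)).cexp
  refine h1.congr_deriv ?_
  unfold ew
  ring

lemma ew_bd {F : ℝ → ℂ} {C : ℝ} {n : ℕ} (w : ℝ) (h : ∀ y, ‖F y‖ ≤ C * (1 + |y|) ^ n) (y : ℝ) :
    ‖ew w y * F y‖ ≤ (Real.exp (w / 2) * C) * (1 + |y|) ^ n := by
  rw [norm_mul, ew_norm, mul_assoc]
  exact mul_le_mul_of_nonneg_left (h y) (Real.exp_pos _).le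

/-- `∫ e^{w z} F(z) κ` -/
def Jw (w : ℝ) (F : ℝ → ℂ) : ℂ := ∫ y : ℝ, (ew w y * F y) * (kap y : ℂ)

lemma Jw_int {F : ℝ → ℂ} (hF : Continuous F) {C : ℝ} {n : ℕ} (w : ℝ)
    (h : ∀ y, ‖F y‖ ≤ C * (1 + |y|) ^ n) :
    Integrable (fun y : ℝ => (ew w y * F y) * (kap y : ℂ)) :=
  integrable_kap ((ew_cont w).mul hF) _ n (ew_bd w h)

/-! ### the kernel -/

section kernel

variable {Q : ℤ} {α β : ℝ} {F F' : ℝ → ℂ}

lemma ker_split (y : ℝ) : F y * kerQ Q α β y =
    ((α + β * wQ Q : ℝ) : ℂ) * ((ew (wQ Q) y * F y) * (kap y : ℂ)) +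
      ((β : ℂ) * -Complex.I) * ((ew (wQ Q) y * F y) * (kap' y : ℂ)) := by
  unfold kerQ ew
  ring

lemma ker_int (hF : Continuous F) {C : ℝ} {n : ℕ} (h : ∀ y, ‖F y‖ ≤ C * (1 + |y|) ^ n) :
    Integrable (fun y : ℝ => F y * kerQ Q α β y) := by
  have h1 := ((Jw_int hF (wQ Q) h).const_mul (((α + β * wQ Q : ℝ) : ℂ))).add
    ((integrable_kap' ((ew_cont (wQ Q)).mul hF) _ n (ew_bd (wQ Q) h)).const_mul
      ((β : ℂ) * -Complex.I))
  refine h1.congr (Eventually.of_forall fun y => ?_)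
  exact (ker_split y).symm

lemma ker_val (hF : Continuous F) {C : ℝ} {n : ℕ} (h : ∀ y, ‖F y‖ ≤ C * (1 + |y|) ^ n)
    (hF' : Continuous F') {C' : ℝ} {n' : ℕ} (h' : ∀ y, ‖F' y‖ ≤ C' * (1 + |y|) ^ n')
    (hd : ∀ y, HasDerivAt F (Complex.I * F' y) y) :
    ∫ y : ℝ, F y * kerQ Q α β y = α * Jw (wQ Q) F - β * Jw (wQ Q) F' := by
  obtain ⟨w, hw⟩ : ∃ w, w = wQ Q := ⟨_, rfl⟩
  have e1 : ∀ y : ℝ, F y * kerQ Q α β y =
      ((α + β * w : ℝ) : ℂ) * ((ew w y * F y) * (kap y : ℂ)) +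
      ((β : ℂ) * -Complex.I) * ((ew w y * F y) * (kap' y : ℂ)) := by
    intro y
    rw [hw]
    exact ker_split y
  have i1 : Integrable (fun y : ℝ => (ew w y * F y) * (kap y : ℂ)) := Jw_int hF w h
  have i2 : Integrable (fun y : ℝ => (ew w y * F y) * (kap' y : ℂ)) :=
    integrable_kap' ((ew_cont w).mul hF) _ n (ew_bd w h)
  rw [← hw, integral_congr_ae (Eventually.of_forall e1), integral_add (i1.const_mul _)
    (i2.const_mul _), integral_const_mul, integral_const_mul]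
  obtain ⟨m, hm1, hm2⟩ : ∃ m, n ≤ m ∧ n' ≤ m := ⟨max n n', le_max_left _ _, le_max_right _ _⟩
  have hC0 : 0 ≤ C := by
    have := h 0
    simp at this
    exact (norm_nonneg _).trans this
  have hC0' : 0 ≤ C' := by
    have := h' 0
    simp at this
    exact (norm_nonneg _).trans this
  have hG : ∀ y, HasDerivAt (fun y => ew w y * F y)
      (Complex.I * (w * (ew w y * F y) + ew w y * F' y)) y := by
    intro y
    have h1 := (ew_deriv w y).mul (hd y)
    refine h1.congr_deriv ?_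
    ring
  have hGc : Continuous (fun y => Complex.I * (w * (ew w y * F y) + ew w y * F' y)) :=
    continuous_const.mul ((continuous_const.mul ((ew_cont w).mul hF)).add ((ew_cont w).mul hF'))
  have hGb : ∀ y, ‖Complex.I * (w * (ew w y * F y) + ew w y * F' y)‖ ≤
      (|w| * (Real.exp (w / 2) * C) + Real.exp (w / 2) * C') * (1 + |y|) ^ m := by
    intro y
    rw [norm_mul, Complex.norm_I, one_mul]
    refine (norm_add_le _ _).trans ?_
    rw [norm_mul, Complex.norm_real, Real.norm_eq_abs, add_mul]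
    have hy : (1 : ℝ) ≤ 1 + |y| := by linarith [abs_nonneg y]
    have p1 := pow_le_pow_right₀ hy hm1
    have p2 := pow_le_pow_right₀ hy hm2
    have b1 := ew_bd w h y
    have b2 := ew_bd w h' y
    refine add_le_add ?_ ?_
    · calc |w| * ‖ew w y * F y‖ ≤ |w| * ((Real.exp (w / 2) * C) * (1 + |y|) ^ n) :=
            mul_le_mul_of_nonneg_left b1 (abs_nonneg _)
        _ ≤ |w| * ((Real.exp (w / 2) * C) * (1 + |y|) ^ m) := by gcongr
        _ = _ := by ring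
    · calc ‖ew w y * F' y‖ ≤ (Real.exp (w / 2) * C') * (1 + |y|) ^ n' := b2
        _ ≤ (Real.exp (w / 2) * C') * (1 + |y|) ^ m := by gcongr
  rw [by_parts hG hGc _ n (ew_bd w h) _ m hGb]
  have e2 : ∀ y : ℝ, Complex.I * (w * (ew w y * F y) + ew w y * F' y) * (kap y : ℂ) =
      (Complex.I * w) * ((ew w y * F y) * (kap y : ℂ)) +
        Complex.I * ((ew w y * F' y) * (kap y : ℂ)) := fun y => by ring
  rw [integral_congr_ae (Eventually.of_forall e2), integral_add ((Jw_int hF w h).const_mul _)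
    ((Jw_int hF' w h').const_mul _), integral_const_mul, integral_const_mul]
  unfold Jw
  push_cast
  linear_combination ((β : ℂ) * (w * (∫ y : ℝ, (ew w y * F y) * (kap y : ℂ)) +
    ∫ y : ℝ, (ew w y * F' y) * (kap y : ℂ))) * Complex.I_mul_I

end kernel

/-! ### polynomials -/

lemma exp_wQ {Q : ℤ} (hQ : Q ≤ -2) : Real.exp (wQ Q) = -(1 / (Q : ℝ)) := by
  have h1 : (Q : ℝ) ≤ -2 := by exact_mod_cast hQ
  unfold wQ
  rw [Real.exp_neg, Real.exp_log (abs_pos.mpr (by linarith)), abs_of_neg (by linarith)]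
  rw [inv_neg, one_div]

lemma Jw_sum {ι : Type*} (w : ℝ) (s : Finset ι) (c : ι → ℚ) (q : ι → ℚ[X]) :
    Jw w (fun y => aeval (zl y) (∑ i ∈ s, C (c i) * q i)) =
      ∑ i ∈ s, (c i : ℂ) * Jw w (fun y => aeval (zl y) (q i)) := by
  unfold Jw
  have h1 : ∀ y : ℝ, (ew w y * aeval (zl y) (∑ i ∈ s, C (c i) * q i)) * (kap y : ℂ) =
      ∑ i ∈ s, (c i : ℂ) * ((ew w y * aeval (zl y) (q i)) * (kap y : ℂ)) := by
    intro y
    rw [map_sum, Finset.mul_sum, Finset.sum_mul]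
    refine Finset.sum_congr rfl fun i _ => ?_
    rw [map_mul, aeval_C]
    simp only [eq_ratCast]
    ring
  simp_rw [h1]
  rw [integral_finsetSum]
  · refine Finset.sum_congr rfl fun i _ => ?_
    rw [integral_const_mul]
  · intro i _
    obtain ⟨C, _, hC⟩ := aeval_bd (q i)
    exact (Jw_int (aeval_cont (q i)) w hC).const_mul _

lemma Jw_X_pow {Q : ℤ} (hQ : Q ≤ -2) (n : ℕ) :
    Jw (wQ Q) (fun y => aeval (zl y) (X ^ n : ℚ[X])) = -((EB Q (X ^ n) : ℚ) : ℂ) := by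
  have hQ0 : (Q : ℂ) ≠ 0 := by
    intro h
    have : Q = 0 := by exact_mod_cast h
    omega
  have hQ1 : (Q : ℂ) - 1 ≠ 0 := by
    intro h
    have h1 : (Q : ℂ) = 1 := by linear_combination h
    have : Q = 1 := by exact_mod_cast h1
    omega
  induction n using Nat.strong_induction_on with
  | _ n ih =>
    have h1 : Jw (wQ Q) (fun y => aeval (zl y) (X ^ n : ℚ[X])) +
        (-(1 / (Q : ℂ))) * Jw (wQ Q) (fun y => aeval (zl y) (((X : ℚ[X]) + 1) ^ n)) =
        -(1 / (Q : ℂ)) := by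
      have h2 := In_feq n (wQ Q)
      have h0 : ((Real.exp (wQ Q) : ℝ) : ℂ) = -(1 / (Q : ℂ)) := by
        rw [exp_wQ hQ]
        push_cast
        ring
      rw [← h0]
      refine Eq.trans ?_ h2
      unfold Jw In
      rw [← integral_const_mul]
      congr 1
      · refine integral_congr_ae (Eventually.of_forall fun y => ?_)
        simp only [map_pow, aeval_X]
        unfold ew
        rw [zl_eq, mul_comm (zc (1 / 2) y) ((wQ Q : ℝ) : ℂ)]
        ring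
      · refine integral_congr_ae (Eventually.of_forall fun y => ?_)
        simp only [map_pow, map_add, aeval_X, map_one]
        unfold ew
        rw [zl_add_one, Complex.ofReal_exp]
        have h3 : Complex.exp (zc (3 / 2) y * ((wQ Q : ℝ) : ℂ)) =
            Complex.exp ((wQ Q : ℝ) : ℂ) * Complex.exp (((wQ Q : ℝ) : ℂ) * zl y) := by
          rw [← Complex.exp_add, ← zl_add_one]
          congr 1
          ring
        rw [h3]
        ring
    have h3 : ((X : ℚ[X]) + 1) ^ n = ∑ m ∈ Finset.range (n + 1), C ((n.choose m : ℕ) : ℚ) * X ^ m := by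
      rw [add_pow]
      refine Finset.sum_congr rfl fun m _ => ?_
      rw [one_pow, mul_one, mul_comm]
      simp
    have h4 := EB_shift (Q := Q) (by omega) (X ^ n)
    rw [show ((X : ℚ[X]) ^ n).comp (X + 1) = (X + 1) ^ n by simp, h3, map_sum,
      Finset.sum_range_succ] at h4
    rw [h3, Jw_sum, Finset.sum_range_succ] at h1
    have h5 : ∀ m ∈ Finset.range n, (((n.choose m : ℕ) : ℚ) : ℂ) *
        Jw (wQ Q) (fun y => aeval (zl y) (X ^ m : ℚ[X])) =
        -((EB Q (C ((n.choose m : ℕ) : ℚ) * X ^ m) : ℚ) : ℂ) := by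
      intro m hm
      rw [Finset.mem_range] at hm
      rw [ih m hm, ← smul_eq_C_mul, map_smul, smul_eq_mul]
      push_cast
      ring
    rw [Finset.sum_congr rfl h5, Finset.sum_neg_distrib] at h1
    simp only [Nat.choose_self, Nat.cast_one, map_one, one_mul, Rat.cast_one, eval_pow, eval_X,
      one_pow] at h1 h4
    have h6 : ((∑ m ∈ Finset.range n, EB Q (C ((n.choose m : ℕ) : ℚ) * X ^ m) : ℚ) : ℂ) =
        ∑ m ∈ Finset.range n, ((EB Q (C ((n.choose m : ℕ) : ℚ) * X ^ m) : ℚ) : ℂ) := by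
      push_cast
      rfl
    rw [← h6] at h1
    have h7 : (∑ m ∈ Finset.range n, EB Q (C ((n.choose m : ℕ) : ℚ) * X ^ m)) =
        ((Q : ℚ) - 1) * EB Q (X ^ n) - 1 := by
      linarith
    rw [h7] at h1
    push_cast at h1
    have h8 : ((Q : ℂ) - 1) * (Jw (wQ Q) (fun y => aeval (zl y) (X ^ n : ℚ[X])) +
        ((EB Q (X ^ n) : ℚ) : ℂ)) = 0 := by
      have h9 : (Q : ℂ) * (1 / (Q : ℂ)) = 1 := by field_simp
      linear_combination (Q : ℂ) * h1 + (-((Q : ℂ) - 1) * ((EB Q (X ^ n) : ℚ) : ℂ) +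
        Jw (wQ Q) (fun y => aeval (zl y) (X ^ n : ℚ[X]))) * h9
    have h9 := (mul_eq_zero.mp h8).resolve_left hQ1
    linear_combination h9

/-- **polynomials** -/
lemma Jw_poly {Q : ℤ} (hQ : Q ≤ -2) (q : ℚ[X]) :
    Jw (wQ Q) (fun y => aeval (zl y) q) = -((EB Q q : ℚ) : ℂ) := by
  have h1 : q = ∑ i ∈ Finset.range (q.natDegree + 1), C (q.coeff i) * X ^ i :=
    q.as_sum_range_C_mul_X_pow
  conv_lhs => rw [h1]
  conv_rhs => rw [h1]
  rw [Jw_sum, map_sum]
  push_cast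
  rw [← Finset.sum_neg_distrib]
  refine Finset.sum_congr rfl fun i _ => ?_
  rw [Jw_X_pow hQ, ← smul_eq_C_mul, map_smul, smul_eq_mul]
  push_cast
  ring

/-! ### the functions `1/(s+k)^n` -/

/-- `∫ e^{w z} κ(y)/(z+k)^{n+1} dy` -/
def Hw (w : ℝ) (n k : ℕ) : ℂ := Jw w (fun y => ((zl y + k) ^ (n + 1))⁻¹)

lemma jointw (w : ℝ) (n k : ℕ) : Integrable (Function.uncurry fun (y u : ℝ) =>
    ew w y * (((u : ℂ) ^ n * Complex.exp (-((zl y + k) * u))) * (kap y : ℂ)))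
    ((volume : Measure ℝ).prod (volume.restrict (Set.Ioi 0))) := by
  have h1 := joint n k
  have h2 : AEStronglyMeasurable (fun p : ℝ × ℝ => ew w p.1)
      ((volume : Measure ℝ).prod (volume.restrict (Set.Ioi 0))) :=
    ((ew_cont w).comp continuous_fst).aestronglyMeasurable
  exact h1.bdd_mul h2 (c := Real.exp (w / 2)) (Eventually.of_forall fun p => (ew_norm w p.1).le)

lemma inner_y (w : ℝ) (n k : ℕ) (u : ℝ) :
    ∫ y : ℝ, ew w y * (((u : ℂ) ^ n * Complex.exp (-((zl y + k) * u))) * (kap y : ℂ)) =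
      ((u ^ n * Real.exp (-(k * u)) * (1 / (1 + Real.exp (u - w))) : ℝ) : ℂ) := by
  have h := J_exp (w - u)
  have h1 : ∀ y : ℝ, ew w y * (((u : ℂ) ^ n * Complex.exp (-((zl y + k) * u))) * (kap y : ℂ)) =
      ((u : ℂ) ^ n * Complex.exp (-(k * u))) *
        (Complex.exp (zl y * ((w - u : ℝ) : ℂ)) * (kap y : ℂ)) := by
    intro y
    have e : ew w y * Complex.exp (-((zl y + k) * u)) =
        Complex.exp (-(k * u)) * Complex.exp (zl y * ((w - u : ℝ) : ℂ)) := by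
      unfold ew
      rw [← Complex.exp_add, ← Complex.exp_add]
      congr 1
      push_cast
      ring
    calc _ = (u : ℂ) ^ n * (ew w y * Complex.exp (-((zl y + k) * u))) * (kap y : ℂ) := by ring
      _ = _ := by rw [e]; ring
  rw [integral_congr_ae (Eventually.of_forall h1), integral_const_mul, h, neg_sub]
  push_cast
  ring

lemma Hw_eq (w : ℝ) (n : ℕ) (hn : n ≤ 1) (k : ℕ) : Hw w n k =
    ∫ u in Set.Ioi (0:ℝ),
      ((u ^ n * Real.exp (-(k * u)) * (1 / (1 + Real.exp (u - w))) : ℝ) : ℂ) := by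
  unfold Hw Jw
  have h1 : ∀ y : ℝ, (ew w y * ((zl y + k) ^ (n + 1))⁻¹) * (kap y : ℂ) =
      ∫ u in Set.Ioi (0:ℝ), ew w y *
        (((u : ℂ) ^ n * Complex.exp (-((zl y + k) * u))) * (kap y : ℂ)) := by
    intro y
    rw [integral_const_mul, integral_mul_const, lap n hn (by rw [zl_k_re]; positivity)]
    ring
  rw [integral_congr_ae (Eventually.of_forall h1), integral_integral_swap (jointw w n k)]
  refine integral_congr_ae (Eventually.of_forall fun u => ?_)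
  exact inner_y w n k u

lemma Hw_u_int (w : ℝ) (n k : ℕ) : Integrable (fun u : ℝ =>
    ((u ^ n * Real.exp (-(k * u)) * (1 / (1 + Real.exp (u - w))) : ℝ) : ℂ))
    (volume.restrict (Set.Ioi 0)) := by
  have h := (jointw w n k).integral_prod_right
  refine h.congr (Eventually.of_forall fun u => ?_)
  exact inner_y w n k u

/-- recursion -/
lemma Hw_rec (w : ℝ) (n : ℕ) (hn : n ≤ 1) (k : ℕ) :
    Hw w n k + ((Real.exp w : ℝ) : ℂ) * Hw w n (k + 1) =
      ((Real.exp w : ℝ) : ℂ) * (((k : ℂ) + 1) ^ (n + 1))⁻¹ := by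
  rw [Hw_eq w n hn, Hw_eq w n hn, ← integral_const_mul,
    ← integral_add (Hw_u_int w n k) ((Hw_u_int w n (k + 1)).const_mul _),
    ← lap n hn (z := (k : ℂ) + 1) (by simp; positivity), ← integral_const_mul]
  refine integral_congr_ae (Eventually.of_forall fun u => ?_)
  simp only
  rw [← Complex.ofReal_mul, ← Complex.ofReal_add]
  have h1 : u ^ n * Real.exp (-(k * u)) * (1 / (1 + Real.exp (u - w))) +
      Real.exp w * (u ^ n * Real.exp (-(((k + 1 : ℕ) : ℝ) * u)) *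
        (1 / (1 + Real.exp (u - w)))) =
      Real.exp w * (u ^ n * Real.exp (-(((k : ℝ) + 1) * u))) := by
    have e1 : Real.exp (-(k * u)) =
        Real.exp w * (Real.exp (-(((k : ℝ) + 1) * u)) * Real.exp (u - w)) := by
      rw [← Real.exp_add, ← Real.exp_add]
      congr 1
      ring
    have h2 := Real.exp_pos (u - w)
    push_cast
    rw [e1]
    field_simp
    ring
  rw [h1]
  push_cast
  rfl

lemma Hw_norm (w : ℝ) (n k : ℕ) :
    ‖Hw w n k‖ ≤ ((1 / 2 + (k : ℝ)) ^ (n + 1))⁻¹ * (Real.exp (w / 2) * ∫ y : ℝ, kap y) := by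
  unfold Hw Jw
  rw [← integral_const_mul, ← integral_const_mul]
  refine norm_integral_le_of_norm_le ((kap_int.const_mul _).const_mul _)
    (Eventually.of_forall fun y => ?_)
  rw [norm_mul, norm_mul, ew_norm, Complex.norm_real, Real.norm_of_nonneg (kap_pos y).le]
  have h1 := H_F_bd n k y
  rw [pow_zero, mul_one] at h1
  have h2 := kap_pos y
  have h3 := Real.exp_pos (w / 2)
  calc Real.exp (w / 2) * ‖((zl y + k) ^ (n + 1))⁻¹‖ * kap y =
        ‖((zl y + k) ^ (n + 1))⁻¹‖ * (Real.exp (w / 2) * kap y) := by ring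
    _ ≤ ((1 / 2 + (k : ℝ)) ^ (n + 1))⁻¹ * (Real.exp (w / 2) * kap y) :=
        mul_le_mul_of_nonneg_right h1 (by positivity)

lemma Hw_tendsto (w : ℝ) (n : ℕ) : Tendsto (fun k => Hw w n k) atTop (𝓝 0) := by
  have h1 : Tendsto (fun k : ℕ => (1 / 2 + (k : ℝ))) atTop atTop :=
    tendsto_atTop_add_const_left _ _ tendsto_natCast_atTop_atTop
  have h2 : Tendsto (fun k : ℕ => ((1 / 2 + (k : ℝ)) ^ (n + 1))⁻¹ *
      (Real.exp (w / 2) * ∫ y : ℝ, kap y)) atTop
      (𝓝 (0 * (Real.exp (w / 2) * ∫ y : ℝ, kap y))) := by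
    refine Tendsto.mul_const _ ?_
    exact (tendsto_pow_atTop (by omega)).comp h1 |>.inv_tendsto_atTop
  rw [zero_mul] at h2
  exact squeeze_zero_norm (Hw_norm w n) h2

lemma Tz_succ (Q : ℤ) (j k : ℕ) :
    Tz Q j (k + 1) = Tz Q j k + (1 / (Q : ℚ)) ^ (k + 1) / ((k + 1 : ℕ) : ℚ) ^ j := by
  unfold Tz
  rw [Finset.sum_Icc_succ_top (by omega)]

lemma Hw_Tz {Q : ℤ} (hQ : Q ≤ -2) (n : ℕ) (hn : n ≤ 1) (k : ℕ) :
    (1 / (Q : ℂ)) ^ k * Hw (wQ Q) n k = Hw (wQ Q) n 0 + ((Tz Q (n + 1) k : ℚ) : ℂ) := by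
  induction k with
  | zero => simp [Tz]
  | succ k ih =>
    have h2 := Hw_rec (wQ Q) n hn k
    rw [exp_wQ hQ] at h2
    rw [Tz_succ, pow_succ]
    push_cast at h2 ⊢
    rw [div_eq_mul_inv _ (((k : ℂ) + 1) ^ (n + 1))]
    linear_combination ih - (1 / (Q : ℂ)) ^ k * h2

lemma li_summable {Q : ℤ} (hQ : Q ≤ -2) (j : ℕ) :
    Summable (fun n : ℕ => (1 / (Q : ℝ)) ^ (n + 1) / ((n : ℝ) + 1) ^ j) := by
  have hQ' : (Q : ℝ) ≤ -2 := by exact_mod_cast hQ
  have habs : |1 / (Q : ℝ)| < 1 := by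
    rw [abs_div, abs_one, abs_of_neg (by linarith), div_lt_one (by linarith)]
    linarith
  have h1 : Summable (fun n : ℕ => |1 / (Q : ℝ)| ^ (n + 1)) :=
    (summable_nat_add_iff 1).2 (summable_geometric_of_lt_one (abs_nonneg _) habs)
  refine Summable.of_norm_bounded h1 fun n => ?_
  rw [Real.norm_eq_abs, abs_div, abs_pow]
  have h2 : (1 : ℝ) ≤ |((n : ℝ) + 1) ^ j| := by
    have h3 : (1 : ℝ) ≤ (n : ℝ) + 1 := by
      have : (0 : ℝ) ≤ n := Nat.cast_nonneg n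
      linarith
    exact (one_le_pow₀ h3).trans (le_abs_self _)
  exact div_le_self (by positivity) h2

lemma Tz_tendsto {Q : ℤ} (hQ : Q ≤ -2) (j : ℕ) :
    Tendsto (fun k => ((Tz Q j k : ℚ) : ℝ)) atTop (𝓝 (li Q j)) := by
  have h1 := (li_summable hQ j).hasSum.tendsto_sum_nat
  refine h1.congr fun k => ?_
  unfold Tz
  have h5 : Finset.Icc 1 k = Finset.Ico 1 (k + 1) := by
    ext j; simp only [Finset.mem_Icc, Finset.mem_Ico]; omega
  rw [h5, Finset.sum_Ico_eq_sum_range, Nat.add_sub_cancel]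
  push_cast
  refine Finset.sum_congr rfl fun i _ => ?_
  rw [add_comm 1 i, add_comm (1 : ℝ) (i : ℝ)]

lemma Hw_zero {Q : ℤ} (hQ : Q ≤ -2) (n : ℕ) (hn : n ≤ 1) :
    Hw (wQ Q) n 0 = -((li Q (n + 1) : ℝ) : ℂ) := by
  have hQ' : (Q : ℝ) ≤ -2 := by exact_mod_cast hQ
  have h1 : Tendsto (fun k => (1 / (Q : ℂ)) ^ k * Hw (wQ Q) n k) atTop (𝓝 0) := by
    refine squeeze_zero_norm (a := fun k => ‖Hw (wQ Q) n k‖) (fun k => ?_) ?_
    · rw [norm_mul, norm_pow]
      have h2 : ‖1 / (Q : ℂ)‖ ≤ 1 := by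
        have h3 : (1 / (Q : ℂ)) = ((1 / (Q : ℝ) : ℝ) : ℂ) := by push_cast; rfl
        rw [h3, Complex.norm_real, Real.norm_eq_abs, abs_div, abs_one,
          abs_of_neg (by linarith : (Q : ℝ) < 0), div_le_one (by linarith)]
        linarith
      calc ‖1 / (Q : ℂ)‖ ^ k * ‖Hw (wQ Q) n k‖ ≤ 1 * ‖Hw (wQ Q) n k‖ :=
            mul_le_mul_of_nonneg_right (pow_le_one₀ (norm_nonneg _) h2) (norm_nonneg _)
        _ = _ := one_mul _
    · have h2 := (Hw_tendsto (wQ Q) n).norm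
      rw [norm_zero] at h2
      exact h2
  have h2 : Tendsto (fun k => Hw (wQ Q) n 0 + ((Tz Q (n + 1) k : ℚ) : ℂ)) atTop (𝓝 0) :=
    h1.congr fun k => Hw_Tz hQ n hn k
  have h3 : Tendsto (fun k => Hw (wQ Q) n 0 + ((Tz Q (n + 1) k : ℚ) : ℂ)) atTop
      (𝓝 (Hw (wQ Q) n 0 + ((li Q (n + 1) : ℝ) : ℂ))) := by
    have h4 := (Complex.continuous_ofReal.tendsto _).comp (Tz_tendsto hQ (n + 1))
    have h5 := h4.const_add (Hw (wQ Q) n 0)
    refine h5.congr fun k => ?_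
    simp
  have h4 := tendsto_nhds_unique h3 h2
  linear_combination h4

lemma Hw_val {Q : ℤ} (hQ : Q ≤ -2) (k : ℕ) {α β γ : ℚ}
    (h : (γ : ℝ) + α * li Q 1 + β * li Q 2 = 0) :
    (((α : ℚ) : ℝ) : ℂ) * Hw (wQ Q) 0 k + (((β : ℚ) : ℝ) : ℂ) * Hw (wQ Q) 1 k =
      (((Q : ℚ) ^ k * (γ + α * Tz Q 1 k + β * Tz Q 2 k) : ℚ) : ℂ) := by
  have hQ0 : (Q : ℂ) ≠ 0 := by
    intro h
    have : Q = 0 := by exact_mod_cast h
    omega
  have h0 := Hw_Tz hQ 0 (by norm_num) k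
  have h1 := Hw_Tz hQ 1 le_rfl k
  rw [Hw_zero hQ 0 (by norm_num)] at h0
  rw [Hw_zero hQ 1 le_rfl] at h1
  simp only [zero_add] at h0
  have h3 : (1 + 1 : ℕ) = 2 := rfl
  rw [h3] at h1
  have hs : (Q : ℂ) ^ k * (1 / (Q : ℂ)) ^ k = 1 := by
    rw [← mul_pow, mul_one_div_cancel hQ0, one_pow]
  have h2 : (γ : ℂ) + (α : ℂ) * ((li Q 1 : ℝ) : ℂ) + (β : ℂ) * ((li Q 2 : ℝ) : ℂ) = 0 := by
    have := congrArg (fun x : ℝ => (x : ℂ)) h
    push_cast at this ⊢
    exact this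
  push_cast
  linear_combination (-((α : ℂ) * Hw (wQ Q) 0 k + (β : ℂ) * Hw (wQ Q) 1 k)) * hs +
    (Q : ℂ) ^ k * ((α : ℂ) * h0 + (β : ℂ) * h1 - h2)

/-! ### the two kinds of functions -/

lemma poly_int (Q : ℤ) (q : ℚ[X]) (α β : ℝ) :
    Integrable (fun y : ℝ => aeval (zl y) q * kerQ Q α β y) := by
  obtain ⟨C, _, hC⟩ := aeval_bd q
  exact ker_int (aeval_cont q) hC

lemma poly_val {Q : ℤ} (hQ : Q ≤ -2) (q : ℚ[X]) (α β : ℚ) :
    ∫ y : ℝ, aeval (zl y) q * kerQ Q α β y =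
      ((-α * EB Q q + β * EB Q (derivative q) : ℚ) : ℂ) := by
  obtain ⟨C, _, hC⟩ := aeval_bd q
  obtain ⟨C', _, hC'⟩ := aeval_bd (derivative q)
  rw [ker_val (aeval_cont q) hC (aeval_cont (derivative q)) hC' (aeval_deriv q), Jw_poly hQ,
    Jw_poly hQ]
  push_cast
  ring

lemma rat_bd (n k : ℕ) (y : ℝ) :
    ‖((zl y + k) ^ (n + 1))⁻¹‖ ≤ ((1 / 2 + (k : ℝ)) ^ (n + 1))⁻¹ * (1 + |y|) ^ 0 := H_F_bd n k y

lemma rat_int (Q : ℤ) (k : ℕ) (α β : ℝ) :
    Integrable (fun y : ℝ => (zl y + k)⁻¹ * kerQ Q α β y) := by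
  have hc := H_F_cont 0 k
  have hb := rat_bd 0 k
  simp only [zero_add, pow_one] at hc hb
  exact ker_int hc hb

lemma rat_val (Q : ℤ) (k : ℕ) (α β : ℝ) :
    ∫ y : ℝ, (zl y + k)⁻¹ * kerQ Q α β y =
      (α : ℂ) * Hw (wQ Q) 0 k + (β : ℂ) * Hw (wQ Q) 1 k := by
  have hc := H_F_cont 0 k
  have hb := rat_bd 0 k
  simp only [zero_add, pow_one] at hc hb
  have hc1 := H_F_cont 1 k
  have hb1 := rat_bd 1 k
  have hd : ∀ y : ℝ, HasDerivAt (fun y : ℝ => (zl y + k)⁻¹)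
      (Complex.I * -((zl y + k) ^ (1 + 1))⁻¹) y := by
    intro y
    have h2 : HasDerivAt (fun y : ℝ => zl y + k) Complex.I y :=
      (zl_deriv y).add_const (k : ℂ)
    have h3 := h2.fun_inv (zl_k_ne y k)
    refine h3.congr_deriv ?_
    rw [div_eq_mul_inv]
    ring
  rw [ker_val (F' := fun y => -((zl y + k) ^ (1 + 1))⁻¹) hc hb hc1.neg (n' := 0)
    (C' := ((1 / 2 + (k : ℝ)) ^ (1 + 1))⁻¹) (fun y => by rw [norm_neg]; exact hb1 y) hd]
  have h1 : Jw (wQ Q) (fun y => -((zl y + k) ^ (1 + 1))⁻¹) = -Hw (wQ Q) 1 k := by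
    unfold Hw Jw
    rw [← integral_neg]
    refine integral_congr_ae (Eventually.of_forall fun y => ?_)
    simp only
    ring
  have h2 : Jw (wQ Q) (fun y => (zl y + k)⁻¹) = Hw (wQ Q) 0 k := by
    unfold Hw
    simp only [zero_add, pow_one]
  rw [h1, h2]
  ring

end LineA

open LineA in
theorem A_line : S_line := by
  intro Q hQ a b _ _ α β γ hrel f
  have hz := Pool.Agent.H757R2.LP.zl_k_ne
  have h1 : ∀ y : ℝ, aeval (zl y) f * GwQ Q a b α β y =
      aeval (zl y) (pp a b f) * kerQ Q α β y +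
      ∑ k ∈ Finset.Icc a b, ((rs a b f k : ℚ) : ℂ) * ((zl y + k)⁻¹ * kerQ Q α β y) := by
    intro y
    unfold GwQ
    rw [← mul_assoc, Pool.Agent.H757R2.LP.pf a b f (zl y) (hz y), add_mul, Finset.sum_mul]
    congr 1
    refine Finset.sum_congr rfl fun k _ => ?_
    ring
  have hi : Integrable (fun y : ℝ => aeval (zl y) (pp a b f) * kerQ Q α β y +
      ∑ k ∈ Finset.Icc a b, ((rs a b f k : ℚ) : ℂ) * ((zl y + k)⁻¹ * kerQ Q α β y)) :=
    (poly_int Q (pp a b f) α β).add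
      (integrable_finsetSum (Finset.Icc a b) fun k _ => (rat_int Q k α β).const_mul _)
  refine ⟨hi.congr (Eventually.of_forall fun y => (h1 y).symm), ?_⟩
  rw [integral_congr_ae (Eventually.of_forall h1), integral_add (poly_int Q (pp a b f) α β)
    (integrable_finsetSum (Finset.Icc a b) fun k _ => (rat_int Q k α β).const_mul _),
    integral_finsetSum _ fun k _ => (rat_int Q k α β).const_mul _, poly_val hQ]
  have h2 : ∀ k ∈ Finset.Icc a b,
      ∫ y : ℝ, ((rs a b f k : ℚ) : ℂ) * ((zl y + k)⁻¹ * kerQ Q α β y) =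
      (((Q : ℚ) ^ k * rs a b f k * (γ + α * Tz Q 1 k + β * Tz Q 2 k) : ℚ) : ℂ) := by
    intro k _
    rw [integral_const_mul, rat_val, Hw_val hQ k hrel]
    push_cast
    ring
  rw [Finset.sum_congr rfl h2]
  change ((Lf Q a b α β γ f : ℚ) : ℂ) = _
  unfold Lf
  push_cast
  ring

end

end Pool.Agent.TH50.DQ
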